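import Mathlib
import Pool.Agent.H383R3.MOMain

set_option autoImplicit false

/-!
# MO functions: partial sums of size `1 / (2 n)` in the mean

The argument of `Pool.Agent.H383R3.MOMain` with errors that are only summable.
-/

namespace Pool.Agent.Y437.MO

open Finset Filter Topology Pool.Agent.H383R3.MO

theorem one_sub_sum_le_prod {ι : Type} (T : Finset ι) (a : ι → ℝ) (h0 : ∀ i ∈ T, 0 ≤ a i)
    (h1 : ∀ i ∈ T, a i ≤ 1) :
    1 - ∑ i ∈ T, a i ≤ ∏ i ∈ T, (1 - a i) ∧ ∏ i ∈ T, (1 - a i) ≤ 1 := by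
  classical
  induction T using Finset.induction_on with
  | empty => simp
  | insert i T hi ih =>
    obtain ⟨ih1, ih2⟩ := ih (fun j hj => h0 j (mem_insert_of_mem hj))
      (fun j hj => h1 j (mem_insert_of_mem hj))
    have hp : 0 ≤ ∏ j ∈ T, (1 - a j) := Finset.prod_nonneg (fun j hj => by
      have := h1 j (mem_insert_of_mem hj); linarith)
    have hi0 := h0 i (mem_insert_self _ _)
    have hi1 := h1 i (mem_insert_self _ _)
    rw [Finset.sum_insert hi, Finset.prod_insert hi]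
    constructor
    · have h2 : a i * ∏ j ∈ T, (1 - a j) ≤ a i := by nlinarith
      nlinarith
    · nlinarith

/-- The Dirichlet series is `O(s)` when the partial sums are `O(1/n)` plus a summable error. -/
theorem upper2 (f : ℕ → ℂ) (C : ℝ) (hC : 0 ≤ C) (e : ℕ → ℝ) (he0 : ∀ n, 0 ≤ e n)
    (hes : Summable e) (hS : ∀ n : ℕ, 1 ≤ n → ‖∑ m ∈ Icc 1 n, f m‖ ≤ C / n + e n)
    {s : ℝ} (hs : 0 < s) (hs1 : s ≤ 1)
    (hsum : Summable (fun n : ℕ => f n * (((n : ℝ) ^ (-s) : ℝ) : ℂ))) :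
    ‖∑' n : ℕ, f n * (((n : ℝ) ^ (-s) : ℝ) : ℂ)‖ ≤
      (C * ∑' n : ℕ, 1 / (n : ℝ) ^ 2 + ∑' n, e n) * s := by
  have hsq : Summable (fun n : ℕ => 1 / (n : ℝ) ^ 2) :=
    Real.summable_one_div_nat_pow.mpr (by norm_num)
  have hlim : Tendsto (fun N : ℕ => ∑ n ∈ range (N + 1), f n * (((n : ℝ) ^ (-s) : ℝ) : ℂ)) atTop
      (𝓝 (∑' n : ℕ, f n * (((n : ℝ) ^ (-s) : ℝ) : ℂ))) :=
    (hsum.hasSum.tendsto_sum_nat).comp (tendsto_add_atTop_nat 1)
  have hEq : ∀ N : ℕ, ∑ n ∈ range (N + 1), f n * (((n : ℝ) ^ (-s) : ℝ) : ℂ)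
      = ∑ n ∈ Icc 1 N, f n * (((n : ℝ) ^ (-s) : ℝ) : ℂ) := by
    intro N
    rw [Finset.range_eq_Ico, Finset.sum_eq_sum_Ico_succ_bot (by omega)]
    have h0 : f 0 * ((((0 : ℕ) : ℝ) ^ (-s) : ℝ) : ℂ) = 0 := by
      rw [Nat.cast_zero, Real.zero_rpow (by linarith)]; simp
    rw [h0, zero_add]
    rfl
  have hbound : ∀ N : ℕ, 1 ≤ N → ‖∑ n ∈ range (N + 1), f n * (((n : ℝ) ^ (-s) : ℝ) : ℂ)‖
      ≤ (C / N + e N) + (C * ∑' n : ℕ, 1 / (n : ℝ) ^ 2 + ∑' n, e n) * s := by
    intro N hN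
    rw [hEq, abel f (fun n => (n : ℝ) ^ (-s)) N]
    refine (norm_add_le _ _).trans (add_le_add ?_ ?_)
    · rw [norm_mul]
      calc ‖∑ n ∈ Icc 1 N, f n‖ * ‖((((N + 1 : ℕ) : ℝ) ^ (-s) : ℝ) : ℂ)‖
          ≤ (C / N + e N) * 1 := by
            apply mul_le_mul (hS N hN) _ (norm_nonneg _)
              (add_nonneg (by positivity) (he0 N))
            rw [Complex.norm_real, Real.norm_of_nonneg (by positivity)]
            exact Real.rpow_le_one_of_one_le_of_nonpos
              (by push_cast; linarith [Nat.cast_nonneg (α := ℝ) N]) (by linarith)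
        _ = _ := mul_one _
    · refine (norm_sum_le _ _).trans ?_
      calc ∑ n ∈ Icc 1 N, ‖(∑ m ∈ Icc 1 n, f m) *
            (((n : ℝ) ^ (-s) - ((n + 1 : ℕ) : ℝ) ^ (-s) : ℝ) : ℂ)‖
          ≤ ∑ n ∈ Icc 1 N, ((C * s) * (1 / (n : ℝ) ^ 2) + s * e n) := by
            apply Finset.sum_le_sum
            intro n hn
            have hn1 : 1 ≤ n := (mem_Icc.mp hn).1
            have hn0 : (0 : ℝ) < n := by exact_mod_cast hn1
            have hn1' : (1 : ℝ) ≤ n := by exact_mod_cast hn1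
            obtain ⟨h1, h2⟩ := rpow_diff hn1 hs
            rw [norm_mul, Complex.norm_real, Real.norm_of_nonneg h1]
            calc ‖∑ m ∈ Icc 1 n, f m‖ * ((n : ℝ) ^ (-s) - ((n + 1 : ℕ) : ℝ) ^ (-s))
                ≤ (C / n + e n) * (s / n) :=
                  mul_le_mul (hS n hn1) h2 h1 (add_nonneg (by positivity) (he0 n))
              _ = (C * s) * (1 / (n : ℝ) ^ 2) + (s / n) * e n := by field_simp
              _ ≤ _ := by
                have : s / n ≤ s := div_le_self hs.le hn1'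
                have := mul_le_mul_of_nonneg_right this (he0 n)
                linarith
        _ = (C * s) * ∑ n ∈ Icc 1 N, (1 / (n : ℝ) ^ 2) + s * ∑ n ∈ Icc 1 N, e n := by
            rw [Finset.sum_add_distrib, Finset.mul_sum, Finset.mul_sum]
        _ ≤ (C * s) * ∑' n : ℕ, 1 / (n : ℝ) ^ 2 + s * ∑' n, e n := by
            apply add_le_add
            · apply mul_le_mul_of_nonneg_left _ (by positivity)
              exact hsq.sum_le_tsum _ (fun _ _ => by positivity)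
            · apply mul_le_mul_of_nonneg_left _ hs.le
              exact hes.sum_le_tsum _ (fun _ _ => he0 _)
        _ = _ := by ring
  have hlim2 : Tendsto (fun N : ℕ => (C / (N : ℝ) + e N) +
      (C * ∑' n : ℕ, 1 / (n : ℝ) ^ 2 + ∑' n, e n) * s) atTop
      (𝓝 ((0 + 0) + (C * ∑' n : ℕ, 1 / (n : ℝ) ^ 2 + ∑' n, e n) * s)) :=
    ((tendsto_const_div_atTop_nhds_zero_nat C).add hes.tendsto_atTop_zero).add
      tendsto_const_nhds
  rw [zero_add, zero_add] at hlim2
  exact le_of_tendsto_of_tendsto hlim.norm hlim2 ((eventually_ge_atTop 1).mono hbound)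

/-- The main contradiction, with summable errors. -/
theorem main_false2 (f : ℕ → ℂ) (hf1 : f 1 = 1)
    (hmul : ∀ m n : ℕ, 0 < m → 0 < n → Nat.Coprime m n → f (m * n) = f m * f n)
    (hloc : ∀ p : ℕ, p.Prime → ∃ c : ℂ, c ≠ 0 ∧
      Tendsto (fun K : ℕ => ∑ k ∈ range K, f (p ^ k)) atTop (𝓝 c))
    (C : ℝ) (hC : 0 ≤ C) (e : ℕ → ℝ) (he0 : ∀ n, 0 ≤ e n) (hes : Summable e)
    (hS : ∀ n : ℕ, 1 ≤ n → ‖∑ m ∈ Icc 1 n, f m‖ ≤ C / n + e n)
    (κ : ℝ) (hκ0 : 0 ≤ κ) (hκ1 : κ < 1) (r : ℕ → ℝ) (hr0 : ∀ n, 0 ≤ r n) (hrs : Summable r)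
    (hκ : ∀ p : ℕ, p.Prime → ‖f p‖ ≤ κ / p + r p) :
    False := by
  -- bounds for `f`
  set D : ℝ := 3 * C with hD
  have hD0 : 0 ≤ D := by positivity
  set e' : ℕ → ℝ := fun n => e n + e (n - 1) with he'
  have he'0 : ∀ n, 0 ≤ e' n := fun n => add_nonneg (he0 _) (he0 _)
  have he's : Summable e' := by
    apply hes.add
    rw [← summable_nat_add_iff 1]
    simpa using hes
  have hfD : ∀ n : ℕ, 1 ≤ n → ‖f n‖ ≤ D / n + e' n := by
    intro n hn
    obtain ⟨m, rfl⟩ : ∃ m, n = m + 1 := ⟨n - 1, by omega⟩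
    have h1 : f (m + 1) = (∑ k ∈ Icc 1 (m + 1), f k) - ∑ k ∈ Icc 1 m, f k := by
      rw [Finset.sum_Icc_succ_top (by omega)]; ring
    have h2 := hS (m + 1) (by omega)
    have h4 : ‖f (m + 1)‖ ≤ ‖∑ k ∈ Icc 1 (m + 1), f k‖ + ‖∑ k ∈ Icc 1 m, f k‖ := by
      rw [h1]; exact norm_sub_le _ _
    have hm0 : (0 : ℝ) < ((m + 1 : ℕ) : ℝ) := by positivity
    have h5 : ‖∑ k ∈ Icc 1 m, f k‖ ≤ 2 * C / ((m + 1 : ℕ) : ℝ) + e m := by
      rcases Nat.eq_zero_or_pos m with rfl | hm
      · simp only [Finset.Icc_eq_empty (by omega : ¬ (1 ≤ 0)), Finset.sum_empty, norm_zero]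
        exact add_nonneg (by positivity) (he0 _)
      · refine (hS m hm).trans ?_
        apply add_le_add _ le_rfl
        have hm1 : (0 : ℝ) < m := by exact_mod_cast hm
        have hm2 : (1 : ℝ) ≤ m := by exact_mod_cast hm
        rw [div_le_div_iff₀ hm1 hm0]
        push_cast
        nlinarith
    have h6 : e' (m + 1) = e (m + 1) + e m := by simp [he']
    rw [h6]
    have h7 : D / ((m + 1 : ℕ) : ℝ) = C / ((m + 1 : ℕ) : ℝ) + 2 * C / ((m + 1 : ℕ) : ℝ) := by
      rw [hD]; ring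
    rw [h7]
    linarith
  -- twisted function
  set F : ℝ → ℕ → ℂ := fun s n => f n * (((n : ℝ) ^ (-s) : ℝ) : ℂ) with hF
  have hFle : ∀ s : ℝ, 0 < s → ∀ n : ℕ, 1 ≤ n → ‖F s n‖ ≤ ‖f n‖ := by
    intro s hs n hn
    simp only [hF]
    rw [norm_mul, Complex.norm_real, Real.norm_of_nonneg (by positivity)]
    have h1 : (n : ℝ) ^ (-s) ≤ 1 :=
      Real.rpow_le_one_of_one_le_of_nonpos (by exact_mod_cast hn) (by linarith)
    calc ‖f n‖ * (n : ℝ) ^ (-s) ≤ ‖f n‖ * 1 := mul_le_mul_of_nonneg_left h1 (norm_nonneg _)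
      _ = _ := mul_one _
  have hFnorm : ∀ s : ℝ, 0 < s → ∀ n : ℕ, ‖F s n‖ ≤ D * (n : ℝ) ^ (-(1 + s)) + e' n := by
    intro s hs n
    rcases Nat.eq_zero_or_pos n with rfl | hn
    · simp only [hF, Nat.cast_zero]
      rw [Real.zero_rpow (by linarith), Real.zero_rpow (by linarith)]
      simpa using he'0 0
    · have hn0 : (0 : ℝ) < n := by exact_mod_cast hn
      simp only [hF]
      rw [norm_mul, Complex.norm_real, Real.norm_of_nonneg (by positivity)]
      have h1 : (n : ℝ) ^ (-(1 + s)) = (1 / n) * (n : ℝ) ^ (-s) := by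
        rw [neg_add, Real.rpow_add hn0, Real.rpow_neg_one, one_div]
      have h2 : (n : ℝ) ^ (-s) ≤ 1 :=
        Real.rpow_le_one_of_one_le_of_nonpos (by exact_mod_cast hn) (by linarith)
      have h3 : 0 ≤ (n : ℝ) ^ (-s) := by positivity
      rw [h1, ← mul_assoc, mul_one_div]
      have h4 := mul_le_mul_of_nonneg_right (hfD n hn) h3
      have h5 := mul_le_mul_of_nonneg_left h2 (he'0 n)
      nlinarith
  have hFsum : ∀ s : ℝ, 0 < s → Summable (fun n => ‖F s n‖) := by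
    intro s hs
    refine Summable.of_nonneg_of_le (fun _ => norm_nonneg _) (hFnorm s hs) ?_
    exact ((Real.summable_nat_rpow.mpr (by linarith)).mul_left D).add he's
  have hF0 : ∀ s : ℝ, 0 < s → F s 0 = 0 := by
    intro s hs
    simp only [hF, Nat.cast_zero]
    rw [Real.zero_rpow (by linarith)]; simp
  have hF1 : ∀ s : ℝ, F s 1 = 1 := by
    intro s; simp [hF, hf1]
  have hFmul : ∀ s : ℝ, 0 < s → ∀ {m n : ℕ}, Nat.Coprime m n → F s (m * n) = F s m * F s n := by
    intro s hs m n hmn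
    rcases Nat.eq_zero_or_pos m with rfl | hm
    · rw [Nat.zero_mul, hF0 s hs, zero_mul]
    rcases Nat.eq_zero_or_pos n with rfl | hn
    · rw [Nat.mul_zero, hF0 s hs, mul_zero]
    simp only [hF]
    rw [hmul m n hm hn hmn]
    push_cast
    rw [Real.mul_rpow (Nat.cast_nonneg m) (Nat.cast_nonneg n)]
    push_cast
    ring
  have hEuler : ∀ s : ℝ, 0 < s → Tendsto (fun N : ℕ => ∏ p ∈ Nat.primesBelow N, ∑' e, F s (p ^ e))
      atTop (𝓝 (∑' n, F s n)) := fun s hs =>
    EulerProduct.eulerProduct (hF1 s) (hFmul s hs) (hFsum s hs) (hF0 s hs)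
  -- sums over prime powers
  have hpowsum : ∀ p : ℕ, p.Prime → Summable (fun k : ℕ => e' (p ^ k)) := by
    intro p hp
    exact he's.comp_injective (Nat.pow_right_injective hp.two_le)
  set E : ℕ → ℝ := Set.indicator {p : ℕ | p.Prime}
    (fun p => r p + 2 * D / (p : ℝ) ^ 2 + ∑' k : ℕ, e' (p ^ (k + 2))) with hE
  have hE0 : ∀ n, 0 ≤ E n := by
    intro n
    apply Set.indicator_nonneg
    intro p _
    exact add_nonneg (add_nonneg (hr0 _) (by positivity)) (tsum_nonneg (fun _ => he'0 _))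
  have hEs : Summable E := by
    have h1 : Summable (fun p : ℕ => Set.indicator {p : ℕ | p.Prime}
        (fun p => r p + 2 * D / (p : ℝ) ^ 2) p) := by
      apply Summable.indicator
      apply hrs.add
      have := (Real.summable_one_div_nat_pow.mpr (by norm_num : 1 < 2)).mul_left (2 * D)
      refine this.congr (fun n => ?_)
      rw [mul_one_div]
    have h2 : Summable (fun p : ℕ => Set.indicator {p : ℕ | p.Prime}
        (fun p => ∑' k : ℕ, e' (p ^ (k + 2))) p) := by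
      rw [← summable_subtype_iff_indicator]
      have hinj : Function.Injective (fun x : {p : ℕ | p.Prime} × ℕ => (x.1 : ℕ) ^ (x.2 + 2)) := by
        rintro ⟨⟨p, hp⟩, k⟩ ⟨⟨q, hq⟩, l⟩ h
        simp only at h
        have hp' : p.Prime := hp
        have hq' : q.Prime := hq
        have hpq : p = q := by
          have h3 : p ∣ q ^ (l + 2) := by
            rw [← h]
            exact dvd_pow_self p (by omega)
          exact (Nat.prime_dvd_prime_iff_eq hp' hq').1 (hp'.dvd_of_dvd_pow h3)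
        subst hpq
        have hkl : k + 2 = l + 2 := Nat.pow_right_injective hp'.two_le h
        have : k = l := by omega
        subst this
        rfl
      have h3 : Summable (fun x : {p : ℕ | p.Prime} × ℕ => e' ((x.1 : ℕ) ^ (x.2 + 2))) :=
        he's.comp_injective hinj
      exact h3.prod
    have h3 := h1.add h2
    refine h3.congr (fun n => ?_)
    simp only [hE, Set.indicator]
    split_ifs <;> ring
  -- choice of `P`
  obtain ⟨P, hP2, hPE⟩ : ∃ P : ℕ, 2 ≤ P ∧ ∀ T : Finset ℕ, (∀ p ∈ T, P ≤ p) →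
      ∑ p ∈ T, E p ≤ 1 / 4 := by
    obtain ⟨t, ht⟩ := summable_iff_vanishing_norm.1 hEs (1 / 4) (by norm_num)
    refine ⟨max 2 (t.sup id + 1), le_max_left _ _, fun T hT => ?_⟩
    have hdis : Disjoint T t := by
      rw [Finset.disjoint_left]
      intro a ha ha'
      have h1 := hT a ha
      have h2 : a ≤ t.sup id := Finset.le_sup (f := id) ha'
      have h3 : t.sup id + 1 ≤ max 2 (t.sup id + 1) := le_max_right _ _
      omega
    have := ht T hdis
    rw [Real.norm_eq_abs] at this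
    exact (le_abs_self _).trans this.le
  -- local lower bounds for large primes
  have hlarge : ∀ s : ℝ, 0 < s → ∀ p : ℕ, p.Prime → P ≤ p →
      (1 - (p : ℝ) ^ (-(1 + s))) ^ κ * (1 - 2 * E p) ≤ ‖∑' e, F s (p ^ e)‖ := by
    intro s hs p hp hPp
    have hp1 : (2 : ℝ) ≤ p := by exact_mod_cast hp.two_le
    have hp0 : (0 : ℝ) < p := by linarith
    set u := (p : ℝ) ^ (-(1 + s)) with hu
    have hu0 : 0 < u := Real.rpow_pos_of_pos hp0 _
    have hup : u ≤ 1 / p := by
      rw [hu, one_div, ← Real.rpow_neg_one]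
      exact Real.rpow_le_rpow_of_exponent_le (by linarith) (by linarith)
    have hup2 : u ≤ 1 / 2 := hup.trans (one_div_le_one_div_of_le (by norm_num) hp1)
    have hEp : E p = r p + 2 * D / (p : ℝ) ^ 2 + ∑' k : ℕ, e' (p ^ (k + 2)) :=
      Set.indicator_of_mem (show p ∈ {p : ℕ | p.Prime} from hp) _
    have hgs : Summable (fun k : ℕ => F s (p ^ k)) := by
      have h1 : Summable (fun n => ‖F s n‖) := hFsum s hs
      exact (h1.comp_injective (Nat.pow_right_injective hp.two_le)).of_norm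
    have hgs2 : Summable (fun k : ℕ => F s (p ^ (k + 2))) := (summable_nat_add_iff 2).2 hgs
    have hsplit : ∑' k, F s (p ^ k) = 1 + F s p + ∑' k, F s (p ^ (k + 2)) := by
      rw [← hgs.sum_add_tsum_nat_add 2, Finset.sum_range_succ, Finset.sum_range_succ,
        Finset.sum_range_zero, pow_zero, pow_one, hF1, zero_add]
    have hb1 : ‖F s p‖ ≤ κ * u + r p := by
      simp only [hF]
      rw [norm_mul, Complex.norm_real, Real.norm_of_nonneg (by positivity)]
      have h1 : u = (1 / p) * (p : ℝ) ^ (-s) := by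
        rw [hu, neg_add, Real.rpow_add hp0, Real.rpow_neg_one, one_div]
      have h2 : (p : ℝ) ^ (-s) ≤ 1 :=
        Real.rpow_le_one_of_one_le_of_nonpos (by linarith) (by linarith)
      have h3 : 0 ≤ (p : ℝ) ^ (-s) := by positivity
      have h4 := mul_le_mul_of_nonneg_right (hκ p hp) h3
      have h5 := mul_le_mul_of_nonneg_left h2 (hr0 p)
      have h6 : κ / p * (p : ℝ) ^ (-s) = κ * u := by rw [h1]; ring
      nlinarith
    have hb2 : ‖∑' k, F s (p ^ (k + 2))‖ ≤ 2 * D / (p : ℝ) ^ 2 + ∑' k : ℕ, e' (p ^ (k + 2)) := by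
      have hpi0 : 0 ≤ 1 / (p : ℝ) := by positivity
      have hpi1 : 1 / (p : ℝ) ≤ 1 / 2 := one_div_le_one_div_of_le (by norm_num) hp1
      have g1 : HasSum (fun k : ℕ => D * (1 / (p : ℝ)) ^ 2 * (1 / (p : ℝ)) ^ k)
          (D * (1 / (p : ℝ)) ^ 2 * (1 - 1 / (p : ℝ))⁻¹) :=
        (hasSum_geometric_of_lt_one hpi0 (by linarith)).mul_left _
      have g2 : HasSum (fun k : ℕ => e' (p ^ (k + 2))) (∑' k : ℕ, e' (p ^ (k + 2))) :=
        ((summable_nat_add_iff 2).2 (hpowsum p hp)).hasSum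
      have g3 := g1.add g2
      have g4 : ‖∑' k, F s (p ^ (k + 2))‖ ≤ D * (1 / (p : ℝ)) ^ 2 * (1 - 1 / (p : ℝ))⁻¹ +
          ∑' k : ℕ, e' (p ^ (k + 2)) := by
        refine tsum_of_norm_bounded g3 (fun k => ?_)
        have hpk : 1 ≤ p ^ (k + 2) := Nat.one_le_pow _ _ hp.pos
        refine ((hFle s hs _ hpk).trans (hfD _ hpk)).trans (le_of_eq ?_)
        congr 1
        push_cast
        rw [pow_add, one_div, inv_pow, inv_pow, div_eq_mul_inv, mul_inv]
        ring
      refine g4.trans (add_le_add ?_ le_rfl)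
      have g5 : (1 - 1 / (p : ℝ))⁻¹ ≤ 2 := by
        rw [inv_le_comm₀ (by linarith) (by norm_num)]
        linarith
      calc D * (1 / (p : ℝ)) ^ 2 * (1 - 1 / (p : ℝ))⁻¹ ≤ D * (1 / (p : ℝ)) ^ 2 * 2 :=
            mul_le_mul_of_nonneg_left g5 (by positivity)
        _ = _ := by ring
    have hmain : 1 - κ * u - E p ≤ ‖∑' k, F s (p ^ k)‖ := by
      rw [hsplit, hEp]
      have h1 := norm_sub_norm_le (1 : ℂ) (-(F s p + ∑' k, F s (p ^ (k + 2))))
      rw [norm_one, norm_neg, sub_neg_eq_add, ← add_assoc] at h1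
      have h2 := norm_add_le (F s p) (∑' k, F s (p ^ (k + 2)))
      linarith
    have h7 := rpow_one_add_le_one_add_mul_self (s := -u) (by linarith) hκ0 hκ1.le
    have h8 : 1 + -u = 1 - u := by ring
    rw [h8] at h7
    have h9 : 1 / 2 ≤ (1 - u) ^ κ := by
      have g1 : (1 - u) ^ (1 : ℝ) ≤ (1 - u) ^ κ :=
        Real.rpow_le_rpow_of_exponent_ge (by linarith) (by linarith) hκ1.le
      rw [Real.rpow_one] at g1
      linarith
    have h10 : 0 ≤ E p := hE0 p
    nlinarith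
  -- local limits for small primes
  have hsmall : ∀ p : ℕ, p.Prime → ∃ c : ℂ, c ≠ 0 ∧
      Tendsto (fun s : ℝ => ∑' e, F s (p ^ e)) (𝓝[>] 0) (𝓝 c) := by
    intro p hp
    obtain ⟨c, hc, hlim⟩ := hloc p hp
    refine ⟨c, hc, ?_⟩
    have hp1 : (1 : ℝ) < p := by exact_mod_cast hp.one_lt
    have hbd : Summable (fun k : ℕ => D * (1 / (p : ℝ)) ^ k + e' (p ^ k)) :=
      ((summable_geometric_of_lt_one (by positivity)
        (by rw [div_lt_one (by linarith)]; exact hp1)).mul_left D).add (hpowsum p hp)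
    have hnorm : ∀ k : ℕ, ‖f (p ^ k)‖ ≤ D * (1 / (p : ℝ)) ^ k + e' (p ^ k) := by
      intro k
      have := hfD (p ^ k) (Nat.one_le_iff_ne_zero.mpr (pow_pos hp.pos k).ne')
      refine this.trans (le_of_eq ?_)
      push_cast
      rw [one_div, inv_pow]; rfl
    have hsumm : Summable (fun k : ℕ => f (p ^ k)) := Summable.of_norm_bounded hbd hnorm
    have hceq : ∑' k, f (p ^ k) = c :=
      tendsto_nhds_unique hsumm.hasSum.tendsto_sum_nat hlim
    rw [← hceq]
    refine tendsto_tsum_of_dominated_convergence hbd ?_ ?_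
    · intro k
      have hpk : (0 : ℝ) < ((p ^ k : ℕ) : ℝ) := by exact_mod_cast pow_pos hp.pos k
      have h1 : Tendsto (fun s : ℝ => (((p ^ k : ℕ) : ℝ) ^ (-s) : ℝ)) (𝓝[>] 0) (𝓝 1) := by
        have h2 : Continuous (fun s : ℝ => ((p ^ k : ℕ) : ℝ) ^ (-s)) := by
          refine Continuous.rpow continuous_const continuous_neg ?_
          intro x; exact Or.inl hpk.ne'
        have h3 := h2.tendsto 0
        simp only [neg_zero, Real.rpow_zero] at h3
        exact h3.mono_left nhdsWithin_le_nhds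
      have h4 : Tendsto (fun s : ℝ => f (p ^ k) * (((((p ^ k : ℕ) : ℝ) ^ (-s) : ℝ)) : ℂ)) (𝓝[>] 0)
          (𝓝 (f (p ^ k) * ((1 : ℝ) : ℂ))) :=
        tendsto_const_nhds.mul ((Complex.continuous_ofReal.tendsto 1).comp h1)
      have h5 : f (p ^ k) * ((1 : ℝ) : ℂ) = f (p ^ k) := by simp
      rw [h5] at h4
      exact h4
    · filter_upwards [self_mem_nhdsWithin] with s hs k
      exact (hFle s hs _ (Nat.one_le_iff_ne_zero.mpr (pow_pos hp.pos k).ne')).trans (hnorm k)
  -- product over small primes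
  obtain ⟨A, hA, hAev⟩ : ∃ A : ℝ, 0 < A ∧ ∀ᶠ s : ℝ in 𝓝[>] 0,
      A ≤ ∏ p ∈ Nat.primesBelow P, ‖∑' e, F s (p ^ e)‖ := by
    choose! c hc hclim using hsmall
    have h1 : Tendsto (fun s : ℝ => ∏ p ∈ Nat.primesBelow P, ‖∑' e, F s (p ^ e)‖) (𝓝[>] 0)
        (𝓝 (∏ p ∈ Nat.primesBelow P, ‖c p‖)) := by
      apply tendsto_finsetProd
      intro p hp
      exact (hclim p (Nat.prime_of_mem_primesBelow hp)).norm
    have h2 : 0 < ∏ p ∈ Nat.primesBelow P, ‖c p‖ := by
      apply Finset.prod_pos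
      intro p hp
      exact norm_pos_iff.mpr (hc p (Nat.prime_of_mem_primesBelow hp))
    refine ⟨(∏ p ∈ Nat.primesBelow P, ‖c p‖) / 2, by positivity, ?_⟩
    have h3 := h1.eventually (lt_mem_nhds (half_lt_self h2))
    exact h3.mono (fun s hs => hs.le)
  obtain ⟨δ, hδ, hzeta⟩ := zeta_upper
  have hev : ∀ᶠ s : ℝ in 𝓝[>] 0, A * ((s / 2) ^ κ * (1 / 2)) ≤
      (C * ∑' n : ℕ, 1 / (n : ℝ) ^ 2 + ∑' n, e n) * s := by
    have hδev : ∀ᶠ s : ℝ in 𝓝[>] 0, s < δ :=
      (eventually_lt_nhds hδ).filter_mono nhdsWithin_le_nhds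
    have h1ev : ∀ᶠ s : ℝ in 𝓝[>] 0, s < 1 :=
      (eventually_lt_nhds one_pos).filter_mono nhdsWithin_le_nhds
    filter_upwards [hAev, hδev, h1ev, self_mem_nhdsWithin] with s hs1 hs2 hs4 hs3
    have hs0 : (0 : ℝ) < s := hs3
    have hup := upper2 f C hC e he0 hes hS hs0 hs4.le ((hFsum s hs0).of_norm)
    refine le_trans ?_ hup
    -- lower bound through the Euler product
    refine ge_of_tendsto (hEuler s hs0).norm ?_
    filter_upwards [eventually_ge_atTop P] with N hN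
    rw [norm_prod]
    have hsplit : ∏ p ∈ Nat.primesBelow N, ‖∑' e, F s (p ^ e)‖
        = (∏ p ∈ Nat.primesBelow P, ‖∑' e, F s (p ^ e)‖) *
          ∏ p ∈ (Nat.primesBelow N).filter (fun p => P ≤ p), ‖∑' e, F s (p ^ e)‖ := by
      rw [← Finset.prod_filter_not_mul_prod_filter (Nat.primesBelow N) (fun p => P ≤ p)]
      congr 1
      apply Finset.prod_congr _ (fun _ _ => rfl)
      ext p
      simp only [mem_filter, Nat.mem_primesBelow, not_le]
      constructor
      · rintro ⟨⟨h1, h2⟩, h3⟩; exact ⟨h3, h2⟩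
      · rintro ⟨h1, h2⟩; exact ⟨⟨by omega, h2⟩, h1⟩
    rw [hsplit]
    have hz := euler_lower hs0 N P (2 / s) (by positivity) (hzeta s hs0 hs2)
    set T := (Nat.primesBelow N).filter (fun p => P ≤ p) with hT
    have hTp : ∀ p ∈ T, p.Prime ∧ P ≤ p := fun p hp =>
      ⟨Nat.prime_of_mem_primesBelow (mem_filter.mp hp).1, (mem_filter.mp hp).2⟩
    have hupos : ∀ p ∈ T, 0 < 1 - (p : ℝ) ^ (-(1 + s)) := by
      intro p hp
      have : (p : ℝ) ^ (-(1 + s)) < 1 :=
        Real.rpow_lt_one_of_one_lt_of_neg (by exact_mod_cast (hTp p hp).1.one_lt) (by linarith)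
      linarith
    have hsumE : ∑ p ∈ T, E p ≤ 1 / 4 := hPE T (fun p hp => (hTp p hp).2)
    have hEle : ∀ p ∈ T, E p ≤ 1 / 4 := fun p hp =>
      (Finset.single_le_sum (fun q _ => hE0 q) hp).trans hsumE
    have hprodE : 1 / 2 ≤ ∏ p ∈ T, (1 - 2 * E p) := by
      have h1 := (one_sub_sum_le_prod T (fun p => 2 * E p)
        (fun p _ => by have := hE0 p; linarith) (fun p hp => by have := hEle p hp; linarith)).1
      rw [← Finset.mul_sum] at h1
      linarith
    have h1 : (s / 2) ^ κ * (1 / 2) ≤ ∏ p ∈ T, ‖∑' e, F s (p ^ e)‖ := by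
      calc (s / 2) ^ κ * (1 / 2) = (1 / (2 / s)) ^ κ * (1 / 2) := by rw [one_div_div]
        _ ≤ (∏ p ∈ T, (1 - (p : ℝ) ^ (-(1 + s)))) ^ κ * ∏ p ∈ T, (1 - 2 * E p) := by
            apply mul_le_mul
            · exact Real.rpow_le_rpow (by positivity) hz hκ0
            · exact hprodE
            · norm_num
            · exact Real.rpow_nonneg (Finset.prod_nonneg (fun p hp => (hupos p hp).le)) _
        _ = ∏ p ∈ T, ((1 - (p : ℝ) ^ (-(1 + s))) ^ κ * (1 - 2 * E p)) := by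
            rw [← Real.finsetProd_rpow _ _ (fun p hp => (hupos p hp).le),
              Finset.prod_mul_distrib]
        _ ≤ _ := by
            apply Finset.prod_le_prod
            · intro p hp
              have := hEle p hp
              exact mul_nonneg (Real.rpow_nonneg (hupos p hp).le _) (by linarith)
            · intro p hp
              exact hlarge s hs0 p (hTp p hp).1 (hTp p hp).2
    exact mul_le_mul hs1 h1 (by positivity) (le_trans hA.le hs1)
  -- contradiction as s → 0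
  set B := C * ∑' n : ℕ, 1 / (n : ℝ) ^ 2 + ∑' n, e n with hB
  have hlim : Tendsto (fun s : ℝ => B * s ^ (1 - κ)) (𝓝[>] 0) (𝓝 0) := by
    have h1 : Tendsto (fun s : ℝ => s ^ (1 - κ)) (𝓝[>] 0) (𝓝 0) := by
      have h2 : ContinuousAt (fun s : ℝ => s ^ (1 - κ)) 0 :=
        Real.continuousAt_rpow_const 0 (1 - κ) (Or.inr (by linarith))
      have h3 := h2.tendsto
      rw [Real.zero_rpow (by linarith)] at h3
      exact h3.mono_left nhdsWithin_le_nhds
    simpa using h1.const_mul B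
  have hA2 : 0 < A / 2 ^ κ * (1 / 2) := by positivity
  have hev2 : ∀ᶠ s : ℝ in 𝓝[>] 0, B * s ^ (1 - κ) < A / 2 ^ κ * (1 / 2) :=
    hlim.eventually (gt_mem_nhds hA2)
  have hev3 : ∀ᶠ s : ℝ in 𝓝[>] (0 : ℝ), False := by
    filter_upwards [hev, hev2, self_mem_nhdsWithin] with s h1 h2 h3
    have hs0 : (0 : ℝ) < s := h3
    rw [Real.div_rpow hs0.le (by norm_num)] at h1
    have h4 : s = s ^ (1 - κ) * s ^ κ := by
      rw [← Real.rpow_add hs0]; simp
    have h5 : 0 < s ^ κ := Real.rpow_pos_of_pos hs0 _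
    have h6 : A / 2 ^ κ * (1 / 2) * s ^ κ ≤ (B * s ^ (1 - κ)) * s ^ κ := by
      calc A / 2 ^ κ * (1 / 2) * s ^ κ = A * (s ^ κ / 2 ^ κ * (1 / 2)) := by ring
        _ ≤ B * s := h1
        _ = (B * s ^ (1 - κ)) * s ^ κ := by rw [mul_assoc B, ← h4]
    have h7 := le_of_mul_le_mul_right h6 h5
    linarith
  exact absurd hev3.exists (by simp)

end Pool.Agent.Y437.MO
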